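import Pool.Agent.H46.SK.Targets

/-!
# MP_2fe131_nt: module KARS
-/

namespace Pool.Agent.H67.SKM

open Finset _root_.SK

/-- blocks with different positive indices are disjoint -/
theorem blk_disjoint_lt (k r r' : ℕ) (h : r < r') : Disjoint (blk k r) (blk k r') := by
  rw [disjoint_left]
  intro p hp hp'
  unfold blk at hp hp'
  rw [mem_filter, mem_range] at hp hp'
  obtain ⟨-, -, h3, -, h5⟩ := hp
  obtain ⟨-, -, -, h4, -⟩ := hp'
  have h6 : p ^ (2 * r' - 1) < k := by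
    have : p ^ (2 * r' - 1) ≤ r' * p ^ (2 * r' - 1) := Nat.le_mul_of_pos_left _ (by omega)
    omega
  have h7 : p ^ (2 * (2 * r' - 1)) < k ^ 2 := by
    rw [mul_comm, pow_mul]
    exact Nat.pow_lt_pow_left h6 (by norm_num)
  have h8 : p ^ (2 * (2 * r' - 1)) < p ^ (4 * r - 1) := lt_of_lt_of_le h7 h5
  have h9 := (Nat.pow_lt_pow_iff_right (by omega : 1 < p)).mp h8
  omega

theorem blk_disjoint (k r r' : ℕ) (h : r ≠ r') : Disjoint (blk k r) (blk k r') := by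
  rcases lt_or_gt_of_ne h with h | h
  · exact blk_disjoint_lt k r r' h
  · exact (blk_disjoint_lt k r' r h).symm

theorem card_le (R j : ℕ) (hR : 2 ≤ R) :
    #((Icc (R ^ 2) (R ^ 3)).filter (fun r => r % 2 = j)) ≤ R ^ 3 := by
  refine (card_filter_le _ _).trans ?_
  rw [Nat.card_Icc]
  have : 1 ≤ R ^ 2 := Nat.one_le_pow _ _ (by omega)
  omega

/-- **KARS.** -/
theorem pf_KARS (hFOUR : TARGET_FOUR) (hKARB : TARGET_KARB) : TARGET_KARS := by
  intro k R _ t hk2 hR hL ht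
  set L := Real.log k with hLdef
  have hLpos : 0 < L := lt_of_lt_of_le (by positivity) hL
  set E₀ : ℝ := 4 * (1 + L) ^ 2 * Real.exp (-(L / (8 * (R : ℝ) ^ 9))) with hE₀
  have hE₀pos : 0 ≤ E₀ := by positivity
  set A := (Icc (R ^ 2) (R ^ 3)).filter (fun r => r % 2 = 0) with hA
  set B := (Icc (R ^ 2) (R ^ 3)).filter (fun r => r % 2 = 1) with hB
  have hdA : ∀ s : Finset ℕ, (s : Set ℕ).PairwiseDisjoint (fun r => blk k r) := by
    intro s a _ b _ hab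
    exact blk_disjoint k a b hab
  have key : ∀ b : ZMod k, b ≠ 0 →
      ‖∑ i ∈ P1 k R ×ˢ P2 k R, ((1 / ((i.1 : ℝ) * i.2) : ℝ) : ℂ) *
        ZMod.stdAddChar (b * (t * ((i.1 : ZMod k) * (i.2 : ZMod k))⁻¹))‖ ≤
      (R : ℝ) ^ 6 * E₀ := by
    intro b hb
    have hbt : b * t ≠ 0 := mul_ne_zero hb ht
    have h1 : ∑ i ∈ P1 k R ×ˢ P2 k R, ((1 / ((i.1 : ℝ) * i.2) : ℝ) : ℂ) *
        ZMod.stdAddChar (b * (t * ((i.1 : ZMod k) * (i.2 : ZMod k))⁻¹)) =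
        ∑ r₁ ∈ A, ∑ r₂ ∈ B, ∑ p ∈ blk k r₁, ∑ q ∈ blk k r₂,
          ((1 / ((p : ℝ) * q) : ℝ) : ℂ) *
            ZMod.stdAddChar (b * t * ((p : ZMod k) * (q : ZMod k))⁻¹) := by
      rw [sum_product]
      unfold P1 P2
      rw [sum_biUnion (hdA _)]
      refine sum_congr rfl fun r₁ _ => ?_
      rw [sum_comm (s := B)]
      refine sum_congr rfl fun p _ => ?_
      rw [sum_biUnion (hdA _)]
      refine sum_congr rfl fun r₂ _ => ?_
      refine sum_congr rfl fun q _ => ?_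
      rw [mul_assoc b t]
    rw [h1]
    calc ‖∑ r₁ ∈ A, ∑ r₂ ∈ B, ∑ p ∈ blk k r₁, ∑ q ∈ blk k r₂,
          ((1 / ((p : ℝ) * q) : ℝ) : ℂ) *
            ZMod.stdAddChar (b * t * ((p : ZMod k) * (q : ZMod k))⁻¹)‖
        ≤ ∑ r₁ ∈ A, ∑ r₂ ∈ B, E₀ := by
          refine (norm_sum_le _ _).trans (sum_le_sum fun r₁ h₁ => ?_)
          refine (norm_sum_le _ _).trans (sum_le_sum fun r₂ h₂ => ?_)
          rw [hA, mem_filter, mem_Icc] at h₁
          rw [hB, mem_filter, mem_Icc] at h₂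
          exact hKARB k R r₁ r₂ (b * t) hR hL h₁.1.1 h₁.1.2 h₁.2 h₂.1.1 h₂.1.2 hbt
      _ = (#A : ℝ) * ((#B : ℝ) * E₀) := by
          rw [sum_const, sum_const, nsmul_eq_mul, nsmul_eq_mul]
      _ ≤ (R : ℝ) ^ 3 * ((R : ℝ) ^ 3 * E₀) := by
          have hA' : (#A : ℝ) ≤ (R : ℝ) ^ 3 := by exact_mod_cast card_le R 0 hR
          have hB' : (#B : ℝ) ≤ (R : ℝ) ^ 3 := by exact_mod_cast card_le R 1 hR
          gcongr
      _ = (R : ℝ) ^ 6 * E₀ := by ring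
  have h2 := hFOUR k (ℕ × ℕ) (P1 k R ×ˢ P2 k R) (fun i => 1 / ((i.1 : ℝ) * i.2))
    (fun i => t * ((i.1 : ZMod k) * (i.2 : ZMod k))⁻¹) ((R : ℝ) ^ 6 * E₀) hk2 key
  rw [sum_product] at h2
  refine h2.trans (le_of_eq ?_)
  rw [hE₀]
  ring

end Pool.Agent.H67.SKM
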