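import Pool.Agent.H46.SK.Targets

/-!
# MP_2fe131_nt: module PERT
-/

namespace Pool.Agent.H67.SKM

open Finset _root_.SK

theorem sum_odds (k m : ℕ) (hk : k = 2 * m + 1) (f : ℕ → ℝ) :
    ∑ u ∈ odds k, f u = ∑ i ∈ range m, f (2 * i + 1) := by
  have h : odds k = (range m).image (fun i => 2 * i + 1) := by
    ext u
    unfold odds
    rw [mem_filter, mem_image, mem_range]
    constructor
    · rintro ⟨h1, h2⟩
      exact ⟨u / 2, mem_range.mpr (by omega), by omega⟩
    · rintro ⟨i, hi, rfl⟩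
      rw [mem_range] at hi
      omega
  rw [h, sum_image]
  intro a _ b _ hab
  simp only at hab
  omega

theorem sum_odds_filter (k m n : ℕ) (hk : k = 2 * m + 1) (f : ℕ → ℝ) :
    ∑ u ∈ (odds k).filter (fun u => u ≤ n), f u =
      ∑ i ∈ range m, if 2 * i + 1 ≤ n then f (2 * i + 1) else 0 := by
  rw [sum_filter, sum_odds k m hk]

theorem abs_eps_le (k : ℕ) (x : ZMod k) : |eps k x| ≤ 1 := by
  unfold eps
  split_ifs <;> norm_num

theorem eps_odd (k : ℕ) [Fact k.Prime] (u : ℕ) (hu : u ∈ odds k) : eps k (u : ZMod k) = 1 := by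
  unfold odds at hu
  rw [mem_filter, mem_range] at hu
  haveI : NeZero k := ⟨(Fact.out : k.Prime).ne_zero⟩
  have hv : (u : ZMod k).val = u := ZMod.val_cast_of_lt hu.1
  have h0 : (u : ZMod k) ≠ 0 := by
    intro h
    rw [h, ZMod.val_zero] at hv
    omega
  unfold eps
  rw [if_neg h0, hv, if_pos hu.2]

/-- **PERT.** -/
theorem pf_PERT (hWGT : TARGET_WGT) (hABEL : TARGET_ABEL) (hPERB : TARGET_PERB) : TARGET_PERT := by
  intro k _ hk2 n hn
  have hkp : k.Prime := Fact.out
  have hkodd : k % 2 = 1 := hkp.eq_two_or_odd.resolve_left hk2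
  have hk3 : 3 ≤ k := by
    have := hkp.two_le
    omega
  obtain ⟨m, hm⟩ : ∃ m, k = 2 * m + 1 := ⟨k / 2, by omega⟩
  obtain ⟨hw1, -, -, hw4, hw5, -⟩ := hWGT k hk3
  have hn' := hn
  unfold odds at hn'
  rw [mem_filter, mem_range] at hn'
  have hn1 : 1 ≤ n := by omega
  have hnR : (0 : ℝ) < n := by exact_mod_cast hn1
  have hT1 : T k 1 = ∑ i ∈ range m, w k (2 * i + 1) := by
    unfold T
    rw [← sum_odds k m hm (fun u => w k u)]
    refine sum_congr rfl fun u hu => ?_
    rw [Nat.cast_one, inv_one, mul_one, eps_odd k u hu, mul_one]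
  have hTn : T k n = ∑ i ∈ range m, w k (2 * i + 1) *
      eps k (((2 * i + 1 : ℕ) : ZMod k) * (n : ZMod k)⁻¹) := by
    unfold T
    rw [sum_odds k m hm (fun u => w k u * eps k ((u : ZMod k) * (n : ZMod k)⁻¹))]
  have hdiff : T k n - T k 1 / n = ∑ i ∈ range m, w k (2 * i + 1) *
      (eps k (((2 * i + 1 : ℕ) : ZMod k) * (n : ZMod k)⁻¹) - 1 / n) := by
    rw [hT1, hTn, sum_div, ← sum_sub_distrib]
    refine sum_congr rfl fun i _ => ?_
    ring
  rw [hdiff]
  have hpos : ∀ i, i < m → 0 ≤ w k (2 * i + 1) := fun i hi =>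
    (hw1 (2 * i + 1) (by omega) (by omega)).le
  have hm1 : 1 ≤ m := by omega
  have h1 := hABEL m (fun i => w k (2 * i + 1))
    (fun i => eps k (((2 * i + 1 : ℕ) : ZMod k) * (n : ZMod k)⁻¹) - 1 / n)
    (fun j => min (2 * (j : ℝ)) n) (hpos 0 (by omega)) hpos
    (fun i hi => hw4 (2 * i + 1) (2 * (i + 1) + 1) (by omega) (by omega) (by omega))
    (by
      intro j hj1 hjm
      apply le_min
      · calc |∑ i ∈ range j, (eps k (((2 * i + 1 : ℕ) : ZMod k) * (n : ZMod k)⁻¹) - 1 / n)|
            ≤ ∑ i ∈ range j, |eps k (((2 * i + 1 : ℕ) : ZMod k) * (n : ZMod k)⁻¹) - 1 / n| :=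
              abs_sum_le_sum_abs _ _
          _ ≤ ∑ i ∈ range j, (2 : ℝ) := by
              refine sum_le_sum fun i _ => ?_
              have h1 := abs_eps_le k (((2 * i + 1 : ℕ) : ZMod k) * (n : ZMod k)⁻¹)
              have h2 : |(1 : ℝ) / n| ≤ 1 := by
                rw [abs_of_pos (by positivity), div_le_one hnR]
                exact_mod_cast hn1
              calc _ ≤ |eps k (((2 * i + 1 : ℕ) : ZMod k) * (n : ZMod k)⁻¹)| + |(1 : ℝ) / n| :=
                    abs_sub _ _
                _ ≤ 2 := by linarith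
          _ = 2 * (j : ℝ) := by
              rw [sum_const, card_range, nsmul_eq_mul]
              ring
      · have h2 := hPERB k hk2 n hn j (by omega)
        have h3 : ∑ i ∈ range j, (eps k (((2 * i + 1 : ℕ) : ZMod k) * (n : ZMod k)⁻¹) - 1 / n) =
            ∑ i ∈ range j, eps k (((2 * i + 1 : ℕ) : ZMod k) * (n : ZMod k)⁻¹) - j / n := by
          rw [sum_sub_distrib, sum_const, card_range, nsmul_eq_mul]
          ring
        rw [h3]
        exact h2)
    (by simp)
  refine h1.trans ?_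
  simp only [Nat.cast_zero, mul_zero]
  rw [min_eq_left hnR.le, mul_zero, zero_add]
  have h2 : ∑ i ∈ range m, w k (2 * i + 1) *
      (min (2 * ((i + 1 : ℕ) : ℝ)) n - min (2 * (i : ℝ)) n) ≤
      2 * ∑ u ∈ (odds k).filter (fun u => u ≤ n), w k u := by
    rw [sum_odds_filter k m n hm, mul_sum]
    refine sum_le_sum fun i hi => ?_
    rw [mem_range] at hi
    have hp := hpos i hi
    by_cases hin : 2 * i + 1 ≤ n
    · rw [if_pos hin]
      have h3 : min (2 * ((i + 1 : ℕ) : ℝ)) n - min (2 * (i : ℝ)) n ≤ 2 := by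
        have h4 : min (2 * (i : ℝ)) n = 2 * (i : ℝ) := by
          apply min_eq_left
          have : 2 * i ≤ n := by omega
          exact_mod_cast this
        rw [h4]
        have h5 := min_le_left (2 * ((i + 1 : ℕ) : ℝ)) n
        push_cast at h5 ⊢
        linarith
      nlinarith
    · rw [if_neg hin]
      have h3 : (n : ℝ) ≤ 2 * (i : ℝ) := by
        have : n ≤ 2 * i := by omega
        exact_mod_cast this
      have h4 : min (2 * (i : ℝ)) n = n := min_eq_right h3
      have h5 : min (2 * ((i + 1 : ℕ) : ℝ)) n = n := by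
        apply min_eq_right
        push_cast
        linarith
      rw [h4, h5]
      simp
  have h3 := hw5 n hn1
  calc _ ≤ 2 * ∑ u ∈ (odds k).filter (fun u => u ≤ n), w k u := h2
    _ ≤ 2 * (k * (1 + Real.log n)) := by linarith
    _ = 2 * k * (1 + Real.log n) := by ring

end Pool.Agent.H67.SKM
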