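import Pool.Agent.H46.SK.Targets

/-!
# MP_2fe131_nt: module QB
-/

namespace Pool.Agent.H67.SKM

open Finset _root_.SK

theorem sum_inv_le (k : ℕ) (s : Finset ℕ) (hs : ∀ p ∈ s, 1 ≤ p ∧ p < k) :
    ∑ p ∈ s, (1 : ℝ) / p ≤ 1 + Real.log k := by
  have h1 : ∑ p ∈ s, (1 : ℝ) / p ≤ ∑ p ∈ (range k).image (fun i : ℕ => i + 1), (1 : ℝ) / (p : ℕ) := by
    refine sum_le_sum_of_subset_of_nonneg ?_ (fun i _ _ => by positivity)
    intro p hp
    obtain ⟨h1, h2⟩ := hs p hp
    rw [mem_image]
    exact ⟨p - 1, mem_range.mpr (by omega), by omega⟩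
  refine h1.trans ?_
  rw [sum_image (fun a _ b _ h => by simpa using h)]
  have h2 := harmonic_le_one_add_log k
  refine le_trans (le_of_eq ?_) h2
  unfold harmonic
  push_cast
  refine sum_congr rfl fun i _ => ?_
  rw [one_div]

/-- **QB.** -/
theorem pf_QB : TARGET_QB := by
  intro k r hk hr hL
  have hk2 := hk.two_le
  have hr4 : (4 : ℝ) ≤ r := by exact_mod_cast hr
  have hkpos : (0 : ℝ) < k := by exact_mod_cast hk.pos
  set L := Real.log k with hLdef
  have hLpos : 0 < L := lt_of_lt_of_le (by positivity) hL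
  have hmem : ∀ p ∈ blk k r, p < k ∧ p.Prime ∧ 3 ≤ p ∧ r * p ^ (2 * r - 1) < k ∧
      k ^ 2 ≤ p ^ (4 * r - 1) := by
    intro p hp
    unfold blk at hp
    rw [mem_filter, mem_range] at hp
    exact hp
  have hlow : ∀ p ∈ blk k r, 2 * L / (4 * r - 1) ≤ Real.log p := by
    intro p hp
    obtain ⟨h1, h2, h3, h4, h5⟩ := hmem p hp
    have h6 : ((k : ℝ)) ^ 2 ≤ (p : ℝ) ^ (4 * r - 1) := by exact_mod_cast h5
    have h7 := Real.log_le_log (by positivity) h6
    rw [Real.log_pow, Real.log_pow] at h7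
    have h8 : ((4 * r - 1 : ℕ) : ℝ) = 4 * r - 1 := by
      rw [Nat.cast_sub (by omega)]
      push_cast
      ring
    rw [h8] at h7
    rw [div_le_iff₀ (by linarith)]
    push_cast at h7
    linarith
  refine ⟨?_, ?_, ?_⟩
  · intro p hp
    obtain ⟨h1, h2, h3, h4, h5⟩ := hmem p hp
    have hppos : (0 : ℝ) < p := by
      have : 0 < p := by omega
      exact_mod_cast this
    have hlp := hlow p hp
    have hle : p ^ (2 * r - 1) ≤ k := by
      have : p ^ (2 * r - 1) ≤ r * p ^ (2 * r - 1) := Nat.le_mul_of_pos_left _ (by omega)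
      omega
    refine ⟨?_, ?_, ?_⟩
    · -- `r < p`
      have h6 : (r : ℝ) ^ 2 / 2 ≤ Real.log p := by
        refine le_trans ?_ hlp
        rw [div_le_div_iff₀ (by norm_num) (by linarith)]
        nlinarith [pow_pos (by linarith : (0 : ℝ) < r) 2]
      have h7 : Real.log r < Real.log p := by
        have h8 : Real.log r ≤ r - 1 := Real.log_le_sub_one_of_pos (by linarith)
        nlinarith
      have h9 := (Real.log_lt_log_iff (by linarith) hppos).mp h7
      exact_mod_cast h9
    · calc p ^ 2 ≤ p ^ (2 * r - 1) := Nat.pow_le_pow_right (by omega) (by omega)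
        _ ≤ k := hle
    · have h6 : ((p : ℝ)) ^ (2 * r - 1) ≤ k := by exact_mod_cast hle
      have h7 := Real.log_le_log (by positivity) h6
      rw [Real.log_pow] at h7
      have h8 : ((2 * r - 1 : ℕ) : ℝ) = 2 * r - 1 := by
        rw [Nat.cast_sub (by omega)]
        push_cast
        ring
      rw [h8] at h7
      rw [le_div_iff₀ (by linarith)]
      linarith
  · exact sum_inv_le k _ (fun p hp => ⟨by have := (hmem p hp).2.2.1; omega, (hmem p hp).1⟩)
  · set Z := Real.exp (2 * L / (4 * r - 1)) with hZ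
    have hZpos : 0 < Z := Real.exp_pos _
    have hZle : ∀ p ∈ blk k r, Z ≤ p := by
      intro p hp
      have h3 := (hmem p hp).2.2.1
      have hppos : (0 : ℝ) < p := by
        have : 0 < p := by omega
        exact_mod_cast this
      rw [hZ, ← Real.le_log_iff_exp_le hppos]
      exact hlow p hp
    set N := ⌈Z⌉₊ with hN
    have hN1 : 1 ≤ N := Nat.one_le_ceil_iff.mpr hZpos
    have hsub : blk k r ⊆ Ioo (N - 1) k := by
      intro p hp
      rw [mem_Ioo]
      have h1 : N ≤ p := Nat.ceil_le.mpr (hZle p hp)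
      have h2 := (hmem p hp).1
      exact ⟨by omega, h2⟩
    have hsum : ∑ p ∈ blk k r, (1 : ℝ) / p ^ 2 ≤ 2 / Z := by
      calc ∑ p ∈ blk k r, (1 : ℝ) / p ^ 2 ≤ ∑ p ∈ Ioo (N - 1) k, (1 : ℝ) / p ^ 2 :=
            sum_le_sum_of_subset_of_nonneg hsub (fun i _ _ => by positivity)
        _ = ∑ p ∈ Ioo (N - 1) k, ((p : ℝ) ^ 2)⁻¹ := by
            refine sum_congr rfl fun i _ => ?_
            rw [one_div]
        _ ≤ 2 / (((N - 1 : ℕ) : ℝ) + 1) := sum_Ioo_inv_sq_le _ _
        _ = 2 / N := by
            rw [Nat.cast_sub hN1]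
            push_cast
            ring_nf
        _ ≤ 2 / Z := by
            apply div_le_div_of_nonneg_left (by norm_num) hZpos
            exact Nat.le_ceil Z
    have hnn : 0 ≤ ∑ p ∈ blk k r, (1 : ℝ) / p ^ 2 := sum_nonneg fun i _ => by positivity
    calc (∑ p ∈ blk k r, (1 : ℝ) / p ^ 2) ^ r ≤ (2 / Z) ^ r := pow_le_pow_left₀ hnn hsum r
      _ = 2 ^ r * Real.exp (-(2 * L / (4 * r - 1) * r)) := by
          rw [div_pow, hZ, ← Real.exp_nat_mul, Real.exp_neg, div_eq_mul_inv, mul_comm (r : ℝ)]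
      _ ≤ 2 ^ r * Real.exp (-(L / 2 + L / (8 * r))) := by
          apply mul_le_mul_of_nonneg_left _ (by positivity)
          apply Real.exp_le_exp.mpr
          apply neg_le_neg
          have h1 : 2 * L / (4 * r - 1) * r - (L / 2 + L / (8 * r)) =
              L * (1 / ((4 * r - 1) * (8 * r))) := by
            have h2 : (4 * (r : ℝ) - 1) ≠ 0 := by
              have : (0 : ℝ) < 4 * r - 1 := by linarith
              exact this.ne'
            have h3 : (r : ℝ) ≠ 0 := by
              have : (0 : ℝ) < r := by linarith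
              exact this.ne'
            field_simp
            ring
          have h4 : 0 ≤ L * (1 / ((4 * r - 1) * (8 * r))) := by
            apply mul_nonneg hLpos.le
            apply div_nonneg zero_le_one
            apply mul_nonneg <;> linarith
          linarith

end Pool.Agent.H67.SKM
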